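import Mathlib

namespace Pool.Agent.Results.MP_1d13cc_al.Counterexample

/-- `x y ≠ x` and `y x ≠ x` for all `x, y` with `y` a non-unit. -/
def UnitCancellative (H : Type) [Monoid H] : Prop :=
  ∀ x y : H, ¬ IsUnit y → x * y ≠ x ∧ y * x ≠ x

/-- `u x v ≠ x` whenever `u` or `v` is a non-unit. -/
def Acyclic (H : Type) [Monoid H] : Prop :=
  ∀ u v x : H, (¬ IsUnit u ∨ ¬ IsUnit v) → u * x * v ≠ x

/-- The principal two-sided ideal `H a H`. -/
def principalIdeal {H : Type} [Monoid H] (a : H) : Set H := {z | ∃ x y : H, z = x * a * y}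

/-- No strictly increasing sequence of principal two-sided ideals. -/
def ACCP (H : Type) [Monoid H] : Prop :=
  ¬ ∃ a : ℕ → H, ∀ n, principalIdeal (a n) ⊂ principalIdeal (a (n + 1))

/-- The affine maps `t ↦ a t + b` of `ℚ` with `a, b > 0`, together with the identity. -/
@[ext] structure Aff where
  a : ℚ
  b : ℚ
  ha : 0 < a
  hb : 0 < b ∨ (a = 1 ∧ b = 0)

theorem Aff.b_nonneg (x : Aff) : 0 ≤ x.b := by
  rcases x.hb with h | h
  · exact h.le
  · exact h.2.ge

instance : Mul Aff := ⟨fun x y => ⟨x.a * y.a, x.b * y.a + y.b, mul_pos x.ha y.ha, by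
  have h1 := x.b_nonneg
  have h2 := y.b_nonneg
  have h3 := y.ha
  rcases x.hb with h | h
  · left; positivity
  · rcases y.hb with h' | h'
    · left; positivity
    · right; simp [h.1, h.2, h'.1, h'.2]⟩⟩

instance : One Aff := ⟨⟨1, 0, one_pos, Or.inr ⟨rfl, rfl⟩⟩⟩

@[simp] theorem mul_a (x y : Aff) : (x * y).a = x.a * y.a := rfl
@[simp] theorem mul_b (x y : Aff) : (x * y).b = x.b * y.a + y.b := rfl
@[simp] theorem one_a : (1 : Aff).a = 1 := rfl
@[simp] theorem one_b : (1 : Aff).b = 0 := rfl

instance : Monoid Aff where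
  mul_assoc x y z := by ext <;> simp <;> ring
  one_mul x := by ext <;> simp
  mul_one x := by ext <;> simp

theorem eq_one_or (x : Aff) : x = 1 ∨ 0 < x.b := by
  rcases x.hb with h | h
  · exact Or.inr h
  · left; ext <;> simp [h.1, h.2]

theorem not_unit {x : Aff} (h : 0 < x.b) : ¬ IsUnit x := by
  intro hu
  obtain ⟨y, hy⟩ := hu.exists_right_inv
  have := congrArg Aff.b hy
  simp at this
  have h2 := y.b_nonneg
  have h3 := y.ha
  have : 0 < x.b * y.a + y.b := by positivity
  linarith

theorem pos_of_not_unit {x : Aff} (h : ¬ IsUnit x) : 0 < x.b := by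
  rcases eq_one_or x with h1 | h1
  · exact absurd (h1 ▸ isUnit_one) h
  · exact h1

theorem simple (x z : Aff) (hz : 0 < z.b) : z ∈ principalIdeal x := by
  have h1 := x.ha
  have h2 := x.b_nonneg
  have h3 := z.ha
  have hs : 0 < x.a + x.b := by positivity
  refine ⟨⟨z.a / (x.a * (z.b / (2 * (x.a + x.b)))), 1, by positivity, Or.inl one_pos⟩,
    ⟨z.b / (2 * (x.a + x.b)), z.b / 2, by positivity, Or.inl (by positivity)⟩, ?_⟩
  ext
  · simp only [mul_a]; field_simp
  · simp only [mul_b]; field_simp; ring

theorem mem_pos {x z : Aff} (hx : 0 < x.b) (hz : z ∈ principalIdeal x) : 0 < z.b := by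
  obtain ⟨u, v, rfl⟩ := hz
  simp only [mul_b]
  have := u.b_nonneg
  have := v.b_nonneg
  have := x.ha
  have := v.ha
  positivity

/-- A unit-cancellative monoid satisfying the ACCP need not be acyclic. -/
theorem result : ¬ ∀ (H : Type) [Monoid H], UnitCancellative H → ACCP H → Acyclic H := by
  intro h
  have huc : UnitCancellative Aff := by
    intro x y hy
    have hb := pos_of_not_unit hy
    have hx := x.ha
    constructor
    · intro he
      have h1 := congrArg Aff.a he
      have h2 := congrArg Aff.b he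
      simp only [mul_a, mul_b] at h1 h2
      have : y.a = 1 := by
        have := mul_left_cancel₀ hx.ne' (h1.trans (mul_one _).symm)
        exact this
      rw [this] at h2
      linarith
    · intro he
      have h2 := congrArg Aff.b he
      simp only [mul_b] at h2
      have : 0 < y.b * x.a := by positivity
      linarith
  have hacc : ACCP Aff := by
    rintro ⟨a, ha⟩
    have step : ∀ n, 0 < (a n).b := by
      intro n
      rcases eq_one_or (a n) with h1 | h1
      · exfalso
        apply (ha n).2
        intro z _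
        exact ⟨z, 1, by rw [h1]; simp⟩
      · exact h1
    apply (ha 0).2
    intro z hz
    exact simple _ _ (mem_pos (step 1) hz)
  have hac := h Aff huc hacc
  refine hac ⟨2, 1, by norm_num, Or.inl one_pos⟩ ⟨1 / 2, 1, by norm_num, Or.inl one_pos⟩
    ⟨1, 3, by norm_num, Or.inl (by norm_num)⟩ (Or.inl (not_unit one_pos)) ?_
  ext
  · simp
  · simp; norm_num

end Pool.Agent.Results.MP_1d13cc_al.Counterexample
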